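import Mathlib
import Pool.Agent.H80.BalleanDefs
import Pool.Agent.H80.Ballean

open Pool.Agent.H80.Ballean Cardinal

theorem Pool.Agent.Results.MP_fb12c6_gt.Separated.result :
    ∃ (X : Type) (𝓔 : Set (Set (X × X))), IsBallean 𝓔 ∧ cofStar 𝓔 < cofAst 𝓔 ∧
      cofStar 𝓔 = 1 ∧ ℵ₀ < cofAst 𝓔 := by
  refine ⟨ℕ, LF, isBallean, ?_, cofStar_eq, cofAst_gt⟩
  rw [cofStar_eq]
  exact lt_trans Cardinal.one_lt_aleph0 cofAst_gt
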